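import Mathlib
import Pool.Agent.V1189.RT.Digits

/-!
# Linear complexity, with errors and in windows, of the digits of algebraic numbers

Let `b ≥ 2` be a base and `α_1, …, α_n` real algebraic numbers such that `1, α_1, …, α_n` are linearly
independent over `ℚ` (for `n = 1`: one irrational algebraic number, for example `√2`). We consider the
digits of `α_1, …, α_n` in base `b` at the places `w + 1, …, w + l`, and allow them to be changed in at
most `k` places (each of the changed digits replaced by some integer between `-b` and `b`). Let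
`windowComplexity b α k w l` be the least order of a linear recurrence over `ℚ` satisfied by all the `n`
sequences, for the best choice of the changes. Then for all `k` and `ε > 0` there is a constant `C` with

  `windowComplexity b α k w l ≥ n / (n + k + 1) * l - ε (w + l) - C`    for all `w` and `l`.

For one irrational algebraic number this is `l / (k + 2) - ε (w + l) - C`, and for `w = 0` the
`k`-error linear complexity of the first `L` digits is at least `(1 / (k + 2) - ε) L` for large `L`, for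
example for the binary digits of `√2`. (For random digits the `k`-error linear complexity is about
`L / 2` for every `k`. Measures of irrationality of exponent `2` give only
`1 / (2 + 2 ^ 2 + … + 2 ^ (k + 1))` in place of `1 / (k + 2)`, and nothing about windows with `l < w`.)
-/

set_option autoImplicit false

namespace Pool.Agent.Results.MP_0308e6_nt.ErrorsInWindows

open Finset

/-- the `i`-th digit of `x` after the point in base `b` -/
noncomputable def digit (b : ℕ) (x : ℝ) (i : ℕ) : ℤ := ⌊x * (b : ℝ) ^ i⌋ % (b : ℤ)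

/-- The terms `s_1, …, s_l` satisfy the linear recurrence
`s_(i+m) = c_0 s_i + … + c_(m-1) s_(i+m-1)` for `1 ≤ i ≤ l - m`. -/
def Recurrence (s : ℕ → ℤ) (c : ℕ → ℚ) (l m : ℕ) : Prop :=
  ∀ i : ℕ, 1 ≤ i → i + m ≤ l → (s (i + m) : ℚ) = ∑ j ∈ range m, c j * (s (i + j) : ℚ)

/-- the joint `k`-error linear complexity of the base `b` digits of the numbers `α j` at the places
`w + 1, …, w + l`: the least order of a common recurrence for the terms `1, …, l` of sequences of
integers between `-b` and `b` which agree with these digits in all but at most `k` of the places -/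
noncomputable def windowComplexity {n : ℕ} (b : ℕ) (α : Fin n → ℝ) (k w l : ℕ) : ℕ :=
  sInf {m | ∃ (s : Fin n → ℕ → ℤ) (c : ℕ → ℚ), (∀ j i, |s j i| ≤ b) ∧
    ((Icc 1 l).filter fun i => ∃ j, s j i ≠ digit b (α j) (w + i)).card ≤ k ∧
    ∀ j, Recurrence (s j) c l m}

/-- the bound for several numbers -/
theorem general (n : ℕ) (hn : 1 ≤ n) (α : Fin n → ℝ) (halg : ∀ j, IsAlgebraic ℚ (α j))
    (hli : LinearIndependent ℚ (Fin.cons 1 α : Fin (n + 1) → ℝ)) (b : ℕ) (hb : 2 ≤ b) (k : ℕ)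
    (ε : ℝ) (hε : 0 < ε) :
    ∃ C : ℝ, ∀ w l : ℕ, (n : ℝ) / (n + k + 1) * l - ε * (w + l) - C ≤ windowComplexity b α k w l := by
  obtain ⟨C1, hC1, h⟩ := Pool.Agent.V1189.RT.window n b k hn hb α halg hli (ε / 2) (by linarith)
  obtain ⟨K, hK0, hK⟩ := Pool.Agent.Results.MP_a49cf6_nt.DigitRecurrences.F_linear 17 (ε / 2)
    (by norm_num) (by linarith)
  have hnR : (1 : ℝ) ≤ n := by exact_mod_cast hn
  have hkR : (0 : ℝ) ≤ k := Nat.cast_nonneg k
  refine ⟨K + C1, fun w l => ?_⟩
  have hl0 : (0 : ℝ) ≤ l := Nat.cast_nonneg l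
  have hw0 : (0 : ℝ) ≤ w := Nat.cast_nonneg w
  have hS : (0 : ℝ) < (n : ℝ) + k + 1 := by linarith
  obtain ⟨s, c, hs, hE, hrec⟩ : ∃ (s : Fin n → ℕ → ℤ) (c : ℕ → ℚ), (∀ j i, |s j i| ≤ b) ∧
      ((Icc 1 l).filter fun i => ∃ j, s j i ≠ digit b (α j) (w + i)).card ≤ k ∧
      ∀ j, Recurrence (s j) c l (windowComplexity b α k w l) := by
    refine Nat.sInf_mem (s := {m | ∃ (s : Fin n → ℕ → ℤ) (c : ℕ → ℚ), (∀ j i, |s j i| ≤ b) ∧
      ((Icc 1 l).filter fun i => ∃ j, s j i ≠ digit b (α j) (w + i)).card ≤ k ∧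
      ∀ j, Recurrence (s j) c l m}) ?_
    exact ⟨l, fun j i => digit b (α j) (w + i), fun _ => 0,
      fun j i => Pool.Agent.Results.MP_a49cf6_nt.DigitRecurrences.dig_abs b hb (α j) (w + i),
      by simp, fun j i h1 h2 => by omega⟩
  have hle : windowComplexity b α k w l ≤ l := by
    refine Nat.sInf_le ?_
    exact ⟨fun j i => digit b (α j) (w + i), fun _ => 0,
      fun j i => Pool.Agent.Results.MP_a49cf6_nt.DigitRecurrences.dig_abs b hb (α j) (w + i),
      by simp, fun j i h1 h2 => by omega⟩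
  obtain ⟨m, hm⟩ : ∃ m, m = windowComplexity b α k w l := ⟨_, rfl⟩
  rw [← hm] at hrec hle ⊢
  have h1 := h w l m s c hs hE hrec
  have h2 := hK m
  have h3 : (m : ℝ) + 15 * Pool.Agent.W47.JL.err m ≤
      Pool.Agent.Results.MP_a49cf6_nt.DigitRecurrences.F 17 m := by
    have h4 := Pool.Agent.W47.JL.err_ge m
    have h5 : Pool.Agent.Results.MP_a49cf6_nt.DigitRecurrences.F 17 m =
      m + 17 * Pool.Agent.W47.JL.err m := rfl
    rw [h5]; linarith
  have hmR : (m : ℝ) ≤ l := by exact_mod_cast hle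
  have hm0 : (0 : ℝ) ≤ m := Nat.cast_nonneg m
  have h4 : (m : ℝ) + 15 * Pool.Agent.W47.JL.err m ≤ m + ε / 2 * l + K := by nlinarith
  have h5 : (n : ℝ) * l ≤ (n + k + 1) * (m + ε / 2 * l + K) + ε / 2 * (w + l) + C1 :=
    h1.trans (by
      have := mul_le_mul_of_nonneg_left h4 hS.le
      linarith)
  have h6 : (n : ℝ) / (n + k + 1) * l * (n + k + 1) = n * l := by field_simp
  have h7 : (n : ℝ) / (n + k + 1) * l * (n + k + 1) ≤
      (m + ε * (w + l) + (K + C1)) * (n + k + 1) := by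
    rw [h6]
    have h8 : 0 ≤ ε / 2 * ((w : ℝ) + l) := by positivity
    have h9 : 0 ≤ ε / 2 * (w : ℝ) := by positivity
    nlinarith
  have h8 := le_of_mul_le_mul_right h7 hS
  linarith

/-- **The `k`-error linear complexity of the digits of algebraic numbers in windows.** See the text at
the beginning of the file. -/
theorem result :
    (∀ n : ℕ, 1 ≤ n → ∀ α : Fin n → ℝ, (∀ j, IsAlgebraic ℚ (α j)) →
      LinearIndependent ℚ (Fin.cons 1 α : Fin (n + 1) → ℝ) → ∀ b : ℕ, 2 ≤ b → ∀ k : ℕ,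
      ∀ ε : ℝ, 0 < ε → ∃ C : ℝ, ∀ w l : ℕ,
        (n : ℝ) / (n + k + 1) * l - ε * (w + l) - C ≤ windowComplexity b α k w l) ∧
    (∀ x : ℝ, IsAlgebraic ℚ x → Irrational x → ∀ b : ℕ, 2 ≤ b → ∀ k : ℕ, ∀ ε : ℝ, 0 < ε →
      (∃ C : ℝ, ∀ w l : ℕ, (l : ℝ) / (k + 2) - ε * (w + l) - C ≤ windowComplexity b ![x] k w l) ∧
      ∃ L₀ : ℕ, ∀ L : ℕ, L₀ ≤ L → (1 / ((k : ℝ) + 2) - ε) * L ≤ windowComplexity b ![x] k 0 L) ∧
    ∀ k : ℕ, ∀ ε : ℝ, 0 < ε → ∃ L₀ : ℕ, ∀ L : ℕ, L₀ ≤ L →
      (1 / ((k : ℝ) + 2) - ε) * L ≤ windowComplexity 2 ![Real.sqrt 2] k 0 L := by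
  have h1 : ∀ x : ℝ, IsAlgebraic ℚ x → Irrational x → ∀ b : ℕ, 2 ≤ b → ∀ k : ℕ, ∀ ε : ℝ, 0 < ε →
      (∃ C : ℝ, ∀ w l : ℕ, (l : ℝ) / (k + 2) - ε * (w + l) - C ≤ windowComplexity b ![x] k w l) ∧
      ∃ L₀ : ℕ, ∀ L : ℕ, L₀ ≤ L →
        (1 / ((k : ℝ) + 2) - ε) * L ≤ windowComplexity b ![x] k 0 L := by
    intro x hx hxi b hb k ε hε
    have hli : LinearIndependent ℚ (Fin.cons 1 ![x] : Fin (1 + 1) → ℝ) := by
      rw [Fintype.linearIndependent_iff]
      intro g hg
      rw [Fin.sum_univ_succ, Fin.sum_univ_one] at hg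
      simp only [Fin.cons_zero, Fin.cons_succ, Rat.smul_def, mul_one, Matrix.cons_val_fin_one] at hg
      have h1 : g (Fin.succ 0) = 0 := by
        by_contra hne
        apply hxi
        refine ⟨-(g 0 / g (Fin.succ 0)), ?_⟩
        have hneR : (g (Fin.succ 0) : ℝ) ≠ 0 := by exact_mod_cast hne
        rw [Rat.cast_neg, Rat.cast_div, neg_eq_iff_eq_neg, div_eq_iff hneR]
        linarith
      have h0 : g 0 = 0 := by
        rw [h1, Rat.cast_zero, zero_mul, add_zero] at hg
        exact_mod_cast hg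
      intro j
      refine Fin.cases h0 (fun i => ?_) j
      rw [Fin.fin_one_eq_zero i]
      exact h1
    have hkR : (0 : ℝ) ≤ k := Nat.cast_nonneg k
    have hgen : ∀ ε' : ℝ, 0 < ε' → ∃ C : ℝ, ∀ w l : ℕ,
        (l : ℝ) / (k + 2) - ε' * (w + l) - C ≤ windowComplexity b ![x] k w l := by
      intro ε' hε'
      obtain ⟨C, hC⟩ := general 1 le_rfl ![x] (fun j => by
        rw [Fin.fin_one_eq_zero j]; exact hx) hli b hb k ε' hε'
      refine ⟨C, fun w l => ?_⟩
      have h2 := hC w l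
      have h3 : ((1 : ℕ) : ℝ) / ((1 : ℕ) + k + 1) * l = (l : ℝ) / (k + 2) := by
        push_cast
        rw [show (1 : ℝ) + k + 1 = k + 2 by ring]
        ring
      rw [h3] at h2
      exact h2
    refine ⟨hgen ε hε, ?_⟩
    obtain ⟨C, hC⟩ := hgen (ε / 2) (by linarith)
    obtain ⟨L₀, hL₀⟩ := exists_nat_gt (2 * C / ε)
    refine ⟨L₀, fun L hL => ?_⟩
    have h2 := hC 0 L
    have h3 : 2 * C / ε < L := hL₀.trans_le (by exact_mod_cast hL)
    rw [div_lt_iff₀ hε] at h3
    have h4 : (1 / ((k : ℝ) + 2) - ε) * L = (L : ℝ) / (k + 2) - ε * L := by ring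
    rw [h4]
    push_cast at h2
    linarith
  refine ⟨fun n hn α halg hli b hb k ε hε => general n hn α halg hli b hb k ε hε, h1,
    fun k ε hε => (h1 (Real.sqrt 2) ?_ irrational_sqrt_two 2 le_rfl k ε hε).2⟩
  refine IsAlgebraic.of_pow (n := 2) (by norm_num) ?_
  rw [Real.sq_sqrt (by norm_num)]
  exact isAlgebraic_algebraMap (2 : ℚ)

end Pool.Agent.Results.MP_0308e6_nt.ErrorsInWindows
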