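import Pool.Agent.V60.FSA
import Pool.Agent.TH842.A3.Uni

/-!
# Finite-state machines cannot predict the binary digits of `√2`

A machine with finitely many states reads the digits of `x` in base `b` one after the other and,
before it reads the next digit, it announces a guess, which depends on its state only.

* For every real algebraic irrational number `x` (for instance `√2`), every base `b` (for instance
  `b = 2`) and every machine with at most `S` states the number of wrong guesses for the first `N`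
  digits is at least `c (log N)^3 / (log log N)^5`, where `c > 0` depends only on `x`, `b` and `S`.
* Uniformly in the number `S` of the states, in the machine and in the base the number of wrong
  guesses for the first `N` digits of `√2` is at least `log₂ (N / S) - C`.
-/

set_option autoImplicit false

namespace Pool.Agent.Results.MP_0308e6_nt.FiniteStatePrediction

open Finset Pool.Agent

/-- the `i`-th digit of `x` after the point in base `b` -/
noncomputable def digit (b : ℕ) (x : ℝ) (i : ℕ) : ℤ := ⌊x * (b : ℝ) ^ i⌋ % (b : ℤ)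

/-- A machine with the set of states `Q`: the transition function, the guess announced in each
state, and the initial state. -/
structure Machine (Q : Type) where
  next : Q → ℤ → Q
  guess : Q → ℤ
  start : Q

/-- The state of the machine after it has read the digits number `A + 1, …, A + i` of `x` in base
`b`. -/
noncomputable def Machine.state {Q : Type} (M : Machine Q) (b : ℕ) (x : ℝ) (A : ℕ) : ℕ → Q
  | 0 => M.start
  | i + 1 => M.next (M.state b x A i) (digit b x (A + i + 1))

/-- The number of the wrong guesses for the digits number `A + 1, …, A + n` of `x` in base `b`: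
the guess for the digit number `A + i + 1` is announced when the machine has read the digits number
`A + 1, …, A + i`. -/
noncomputable def Machine.errors {Q : Type} (M : Machine Q) (b : ℕ) (x : ℝ) (A n : ℕ) : ℕ :=
  ((range n).filter (fun i => M.guess (M.state b x A i) ≠ digit b x (A + i + 1))).card

theorem state_eq {Q : Type} (M : Machine Q) (b : ℕ) (x : ℝ) (A i : ℕ) :
    M.state b x A i = V60.FSP.st M.next (V60.FSP.dg b x) M.start A i := by
  induction i with
  | zero => rfl
  | succ i ih =>
    rw [V60.FSP.st_step, ← ih]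
    rfl

theorem errors_eq {Q : Type} [Fintype Q] (M : Machine Q) (b : ℕ) (x : ℝ) (A n : ℕ) :
    M.errors b x A n = V60.FSP.err M.next M.guess (V60.FSP.dg b x) M.start A n := by
  unfold Machine.errors V60.FSP.err
  congr 1
  apply Finset.filter_congr
  intro i _
  rw [state_eq]
  rfl

/-- all algebraic irrational numbers -/
theorem algebraic (x : ℝ) (halg : IsAlgebraic ℚ x) (hirr : Irrational x) (b : ℕ) (hb : 2 ≤ b)
    (S A : ℕ) :
    ∃ c : ℝ, 0 < c ∧ ∃ N₁ : ℕ, ∀ (Q : Type) [Fintype Q], Fintype.card Q ≤ S →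
      ∀ (M : Machine Q) (n : ℕ), N₁ ≤ A + n →
        c * ((Real.log ((A + n : ℕ) : ℝ)) ^ 3 / (Real.log (Real.log ((A + n : ℕ) : ℝ))) ^ 5) ≤
          M.errors b x A n := by
  obtain ⟨c, hc, N₀, h⟩ := Pool.Agent.TH842.A3.Uni.relations_one x halg hirr b hb
    (fun k => if k = 0 then ⌊x⌋ else V60.FSP.dg b x k) (|⌊x⌋| + b) (fun k => by
      split_ifs
      · have : (0 : ℤ) ≤ b := Int.natCast_nonneg b
        linarith
      · have h3 : 0 ≤ V60.FSP.dg b x k := Int.emod_nonneg _ (by omega)
        have h4 : V60.FSP.dg b x k < b := Int.emod_lt_of_pos _ (by omega)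
        rw [abs_of_nonneg h3]
        have := abs_nonneg ⌊x⌋
        linarith) (V60.FSA.hasSum_digits b hb x) S.factorial
    (fun j => if j = 0 then -1 else if j = S.factorial then 1 else 0)
    ⟨0, Nat.zero_le _, by norm_num⟩ 0
  have hP : 0 < S.factorial := Nat.factorial_pos S
  obtain ⟨c', hc', N₁, h'⟩ := V60.FSA.transfer (V60.FSP.dg b x) S A
    (fun N : ℕ => (Real.log N) ^ 3 / (Real.log (Real.log N)) ^ 5) V60.FSA.tendsto_log c hc N₀
    (fun N hN => by
      have h1 := h N hN
      rw [mul_div_assoc] at h1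
      refine h1.trans (le_of_eq ?_)
      congr 2
      apply Finset.filter_congr
      intro k hk
      rw [mem_Icc] at hk
      have e1 : ∑ j ∈ range (S.factorial + 1),
          (if j = 0 then (-1 : ℤ) else if j = S.factorial then 1 else 0) *
            (if k + j = 0 then ⌊x⌋ else V60.FSP.dg b x (k + j)) =
          V60.FSP.dg b x (k + S.factorial) - V60.FSP.dg b x k := by
        rw [sum_range_succ, if_neg hP.ne', if_pos rfl, if_neg (by omega), one_mul]
        have e2 : ∑ j ∈ range S.factorial,
            (if j = 0 then (-1 : ℤ) else if j = S.factorial then 1 else 0) *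
              (if k + j = 0 then ⌊x⌋ else V60.FSP.dg b x (k + j)) = - V60.FSP.dg b x k := by
          rw [sum_eq_single_of_mem 0 (mem_range.2 hP)]
          · rw [if_pos rfl, if_neg (by omega), Nat.add_zero]
            ring
          · intro j hj hj0
            rw [mem_range] at hj
            rw [if_neg hj0, if_neg (by omega), zero_mul]
        rw [e2]
        ring
      rw [e1, Ne, sub_eq_zero])
  refine ⟨c', hc', N₁, fun Q _ hQ M n hn => ?_⟩
  rw [errors_eq]
  exact h' Q hQ M.next M.guess M.start n hn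

/-- `√2` is badly approximable -/
theorem sqrt_two_bad (q : ℕ) (hq : 1 ≤ q) (p : ℤ) :
    (1 / 4 : ℝ) * (q : ℝ) ^ (-(1 : ℝ)) ≤ |q * Real.sqrt 2 - p| := by
  have hq0 : (0 : ℝ) < q := by exact_mod_cast hq
  have hq1 : (1 : ℝ) ≤ q := by exact_mod_cast hq
  have hs : Real.sqrt 2 ^ 2 = 2 := Real.sq_sqrt (by norm_num)
  have hs1 : Real.sqrt 2 < 3 / 2 := by
    rw [Real.sqrt_lt' (by norm_num)]
    norm_num
  have hs0 : 0 < Real.sqrt 2 := Real.sqrt_pos.2 (by norm_num)
  rw [Real.rpow_neg hq0.le, Real.rpow_one]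
  by_contra hcon
  push Not at hcon
  -- `|2 q^2 - p^2| ≥ 1`
  have h1 : (1 : ℝ) ≤ |2 * (q : ℝ) ^ 2 - (p : ℝ) ^ 2| := by
    have h2 : (2 * (q : ℤ) ^ 2 - p ^ 2) ≠ 0 := by
      intro h0
      have h3 : Irrational (Real.sqrt 2) := irrational_sqrt_two
      apply h3
      have h4 : Real.sqrt 2 = |(p : ℝ)| / q := by
        rw [Real.sqrt_eq_iff_mul_self_eq (by norm_num) (by positivity)]
        have h5 : (2 : ℝ) * (q : ℝ) ^ 2 = (p : ℝ) ^ 2 := by
          have : (2 * (q : ℤ) ^ 2 : ℤ) = p ^ 2 := by linarith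
          exact_mod_cast this
        rw [div_mul_div_comm, abs_mul_abs_self, eq_div_iff (by positivity)]
        linear_combination h5
      refine ⟨|(p : ℚ)| / q, ?_⟩
      rw [h4]
      push_cast
      rfl
    have h3 : (1 : ℤ) ≤ |2 * (q : ℤ) ^ 2 - p ^ 2| := Int.one_le_abs h2
    exact_mod_cast h3
  have h2 : |2 * (q : ℝ) ^ 2 - (p : ℝ) ^ 2| = |q * Real.sqrt 2 - p| * |q * Real.sqrt 2 + p| := by
    rw [← abs_mul]
    congr 1
    have : (q * Real.sqrt 2 - p) * (q * Real.sqrt 2 + p) =
        (q : ℝ) ^ 2 * Real.sqrt 2 ^ 2 - (p : ℝ) ^ 2 := by ring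
    rw [this, hs]
    ring
  have h3 : |q * Real.sqrt 2 + p| ≤ 4 * q := by
    have h4 : |q * Real.sqrt 2 + p| ≤ |q * Real.sqrt 2 - p| + 2 * (q * Real.sqrt 2) := by
      have h5 : q * Real.sqrt 2 + p = -(q * Real.sqrt 2 - p) + 2 * (q * Real.sqrt 2) := by ring
      calc |q * Real.sqrt 2 + p| = |-(q * Real.sqrt 2 - p) + 2 * (q * Real.sqrt 2)| := by rw [← h5]
        _ ≤ |-(q * Real.sqrt 2 - p)| + |2 * (q * Real.sqrt 2)| := abs_add_le _ _
        _ = _ := by rw [abs_neg, abs_of_nonneg (by positivity : (0 : ℝ) ≤ 2 * (q * Real.sqrt 2))]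
    have h6 : (1 / 4 : ℝ) * (q : ℝ)⁻¹ ≤ q := by
      have : (q : ℝ)⁻¹ ≤ 1 := inv_le_one_of_one_le₀ hq1
      linarith
    have h7 : q * Real.sqrt 2 ≤ q * (3 / 2) := mul_le_mul_of_nonneg_left hs1.le hq0.le
    have h8 : (1 / 4 : ℝ) * (q : ℝ)⁻¹ ≤ 1 / 4 * q := by
      have : (q : ℝ)⁻¹ ≤ 1 := inv_le_one_of_one_le₀ hq1
      linarith
    linarith
  rw [h2] at h1
  have h4 : |q * Real.sqrt 2 - p| * |q * Real.sqrt 2 + p| ≤ |q * Real.sqrt 2 - p| * (4 * q) :=
    mul_le_mul_of_nonneg_left h3 (abs_nonneg _)
  have h5 : |q * Real.sqrt 2 - p| * (4 * q) < 1 / 4 * (q : ℝ)⁻¹ * (4 * q) :=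
    mul_lt_mul_of_pos_right hcon (by positivity)
  have h6 : 1 / 4 * (q : ℝ)⁻¹ * (4 * q) = 1 := by
    field_simp
  linarith

/-- **Finite-state machines cannot predict the digits of `√2`.**
(1) Let `x` be a real algebraic irrational number (for instance `√2`) and `b ≥ 2` (for instance
`b = 2`).  For all `S` and `A` there are `c > 0` and `N₁` such that every machine with at most `S`
states makes at least `c (log N)^3 / (log log N)^5` wrong guesses for the base `b` digits number
`A + 1, …, N` of `x`, for all `N = A + n ≥ N₁`.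
(2) There is an absolute constant `C` such that in every base every machine with `S` states makes at
least `log₂ (A + n) - log₂ (A + S) - C` wrong guesses for the digits number `A + 1, …, A + n` of
`√2`. -/
theorem result :
    (∀ x : ℝ, IsAlgebraic ℚ x → Irrational x → ∀ b : ℕ, 2 ≤ b →
      ∀ S A : ℕ, ∃ c : ℝ, 0 < c ∧ ∃ N₁ : ℕ, ∀ (Q : Type) [Fintype Q], Fintype.card Q ≤ S →
      ∀ (M : Machine Q) (n : ℕ), N₁ ≤ A + n →
        c * ((Real.log ((A + n : ℕ) : ℝ)) ^ 3 / (Real.log (Real.log ((A + n : ℕ) : ℝ))) ^ 5) ≤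
          M.errors b x A n) ∧
    (∃ C : ℝ, ∀ b : ℕ, 2 ≤ b → ∀ (Q : Type) [Fintype Q] (M : Machine Q) (A n : ℕ), 0 < A + n →
      (Real.log (A + n) - Real.log (A + Fintype.card Q)) / Real.log 2 - C ≤
        M.errors b (Real.sqrt 2) A n) := by
  refine ⟨fun x halg hirr b hb S A => algebraic x halg hirr b hb S A, ?_⟩
  refine ⟨1 + Real.log (1 + (2 * (1 + 1) + max 0 (-Real.log (1 / 4) / Real.log 2)) / 1) /
    Real.log 2, fun b hb Q _ M A n hn => ?_⟩
  rw [errors_eq]
  have h := V60.FSP.main b hb (Real.sqrt 2) 1 (1 / 4) one_pos (by norm_num) sqrt_two_bad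
    M.next M.guess M.start A n hn
  rw [show (1 + 1 : ℝ) = 2 by norm_num] at h ⊢
  exact h

end Pool.Agent.Results.MP_0308e6_nt.FiniteStatePrediction
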