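import Pool.Agent.V11235.SQ.Fin

/-!
# The digits of `√2` between two places

For the binary digits `b_k` of `√2`, `b_0 = 1`, let `N(k) = 1 + N₁(k)` be the number of ones among
`b_0, …, b_k`. It is proved that for all `n ≤ m`

  `m - 2 n - ⌈log₂ (m + 1)⌉ - C ≤ #{(i, l) : b_i = b_l = 1, i ≤ min(l, m - l), n < l ≤ m}`

and therefore `m - 2 n - ⌈log₂ (m + 1)⌉ - C ≤ (N(m) - N(n)) N(m / 2)`. So between the places `n` and
`m > 2 n` there are at least `(m - 2 n - O(log m)) / N(m / 2)` ones. The known lower bounds
`N₁(n) ≥ c √n` say nothing on the digits between two places. (For `m ≤ 2 n` no nontrivial bound of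
this kind can be proved as long as runs of `n` zeros after the first `n` digits are not excluded
effectively.) For `n = 0` and if `N(k)` were about `c √k`, the inequality for the pairs would give
`c ≥ √(8 / π)`, the constant of the starting result `MP_0308e6_nt.LogarithmicMeans`.

The same is proved for the digit sums of the square roots of all nonsquare integers `d` in all
bases `b`, with the additional factor `2` for `b > 2`.

Proof. Let `A_k` be the integral part of `√d b^k` and `s` the sum of the base `b` digits of a natural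
number, which is subadditive. The number `A_m ^ 2` is `d b^(2m)` minus a number of at most
`m + O(1)` digits. The square is expanded step by step from `(b^(m-n) A_n) ^ 2`: the digit with
number `l` contributes `2 x_l b^(m-l) b^(m-l+1) A_(l-1) + x_l^2 b^(2(m-l))`. In this the digits of
`A_(l-1)` with numbers larger than `m - l` only contribute `O(b^m)`, all of them together `O(m b^m)`.
If this error is subtracted there remains a number which is `d b^(2m)` minus a number of at most
`m + log m + O(1)` digits, so the sum of its digits is at least `(b - 1) (m - log m - O(1))`; and it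
is at most `s(A_n ^ 2) ≤ (b - 1) (2 n + O(1))` plus the contributions of the pairs.
-/

set_option autoImplicit false

namespace Pool.Agent.Results.MP_0308e6_nt.OnesBetweenPlaces

open Finset

/-- the `i`-th digit of `y` after the point in base `b` (for `i ≥ 1`) -/
noncomputable def digit (b : ℕ) (y : ℝ) (i : ℕ) : ℕ := ⌊y * (b : ℝ) ^ i⌋₊ % b

/-- the integral part of `y` plus the sum of the first `k` digits after the point in base `b`;
for `√2` and `b = 2` this is one plus the number of ones among the first `k` digits -/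
noncomputable def digitSum (b : ℕ) (y : ℝ) (k : ℕ) : ℕ := ⌊y⌋₊ + ∑ i ∈ Icc 1 k, digit b y i

theorem floor_eq (d b i : ℕ) : ⌊√(d : ℝ) * (b : ℝ) ^ i⌋₊ = V11235.SQ.A d b i := by
  have h : √(d : ℝ) * (b : ℝ) ^ i = √((d * b ^ (2 * i) : ℕ) : ℝ) := by
    push_cast
    rw [Real.sqrt_mul (Nat.cast_nonneg _), pow_mul', Real.sqrt_sq (by positivity)]
  rw [h, Real.nat_floor_real_sqrt_eq_nat_sqrt]
  rfl

theorem digit_eq (d b i : ℕ) (hi : 1 ≤ i) : digit b √(d : ℝ) i = V11235.SQ.x d b i := by
  obtain ⟨j, rfl⟩ : ∃ j, i = j + 1 := ⟨i - 1, by omega⟩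
  unfold digit
  rw [floor_eq]
  rfl

theorem digitSum_eq (d b k : ℕ) : digitSum b √(d : ℝ) k = V11235.SQ.S d b k := by
  unfold digitSum V11235.SQ.S
  rw [Finset.sum_range_succ', Nat.add_comm]
  congr 1
  · rw [Finset.range_eq_Ico, Finset.sum_Ico_add' (fun i => V11235.SQ.x d b i) 0 k 1]
    refine Finset.sum_congr ?_ fun i hi => ?_
    · ext i
      simp only [Finset.mem_Icc, Finset.mem_Ico]
      omega
    · exact digit_eq d b i (Finset.mem_Icc.1 hi).1
  · have := floor_eq d b 0
    rw [pow_zero, mul_one] at this
    rw [this]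
    rfl

/-- For every `d` which is not a square and every base `b ≥ 2` there is a constant `C` such that for
all `n ≤ m`, with `κ = 1` for `b = 2` and `κ = 2` for `b > 2`, the number
`(b - 1) (m - 2 n - ⌈log_b (m + 1)⌉ - C)` is at most `κ` times the sum of the products of the digits
of `√d` with the numbers `i` and `l` over all pairs with `n < l ≤ m` and `0 ≤ i ≤ min(l, m - l)` (the
integral part has the number `0`); and so it is at most `κ` times the sum of the digits between the
places `n + 1` and `m` times the sum of the digits up to the place `m / 2`. -/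
theorem result (d b : ℕ) (hd : ¬ IsSquare d) (hb : 2 ≤ b) : ∃ C : ℕ, ∀ n m : ℕ, n ≤ m →
    ((b : ℤ) - 1) * ((m : ℤ) - 2 * n - Nat.clog b (m + 1) - C) ≤
        (if b = 2 then 1 else 2) *
          ∑ l ∈ Ioc n m, (digit b √d l : ℤ) * digitSum b √d (min l (m - l)) ∧
      ((b : ℤ) - 1) * ((m : ℤ) - 2 * n - Nat.clog b (m + 1) - C) ≤
        (if b = 2 then 1 else 2) *
          (((digitSum b √d m : ℤ) - digitSum b √d n) * digitSum b √d (m / 2)) := by
  obtain ⟨C, hC⟩ := V11235.SQ.pairs hd hb
  refine ⟨C, fun n m hnm => ?_⟩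
  have h1 := hC n m hnm
  have h2 := V11235.SQ.product (d := d) (b := b) n m hnm
  have hk : (V11235.SQ.kap b : ℤ) = if b = 2 then 1 else 2 := by
    unfold V11235.SQ.kap
    split_ifs <;> rfl
  have hk0 : (0 : ℤ) ≤ if b = 2 then 1 else 2 := by split_ifs <;> norm_num
  have h3 : ((∑ l ∈ Ioc n m, V11235.SQ.x d b l * V11235.SQ.S d b (min l (m - l)) : ℕ) : ℤ) =
      ∑ l ∈ Ioc n m, (digit b √d l : ℤ) * digitSum b √d (min l (m - l)) := by
    push_cast
    refine Finset.sum_congr rfl fun l hl => ?_
    rw [digit_eq d b l (by have := Finset.mem_Ioc.1 hl; omega), digitSum_eq]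
  rw [hk, h3] at h1
  refine ⟨h1, h1.trans (mul_le_mul_of_nonneg_left ?_ hk0)⟩
  rw [← h3, digitSum_eq, digitSum_eq, digitSum_eq]
  have h4 : V11235.SQ.S d b n ≤ V11235.SQ.S d b m := V11235.SQ.S_mono hnm
  rw [← Nat.cast_sub h4, ← Nat.cast_mul]
  exact_mod_cast h2

end Pool.Agent.Results.MP_0308e6_nt.OnesBetweenPlaces
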