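import Pool.Agent.V11235.SG.Final
import Pool.Agent.V11235.SG.Alg2

/-!
# Sums of places of nonzero digits of `√2` and of algebraic numbers
-/

set_option autoImplicit false

open Finset Polynomial

namespace Pool.Agent.Results.MP_0308e6_nt.SumsOfPlaces

/-- the base `b` entry of the positive number `x` at the place `k`: the integral part at the place
`0`, the `k`-th digit after the point at the place `k ≥ 1` -/
noncomputable def entry (b : ℕ) (x : ℝ) (k : ℕ) : ℕ :=
  if k = 0 then ⌊x⌋₊ else ⌊x * (b : ℝ) ^ k⌋₊ % b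

/-- the integral part plus the sum of the first `n` digits after the point -/
noncomputable def S (b : ℕ) (x : ℝ) (n : ℕ) : ℕ := ∑ k ∈ range (n + 1), entry b x k

/-- `k` is a sum of two places of nonzero entries (the two places may be equal) -/
def TwoPlaces (b : ℕ) (x : ℝ) (k : ℕ) : Prop :=
  ∃ i j, entry b x i ≠ 0 ∧ entry b x j ≠ 0 ∧ i + j = k

/-- the `k`-th digit after the point of a real number in base `b` -/
noncomputable def digit (b : ℕ) (x : ℝ) (k : ℕ) : ℤ := ⌊x * (b : ℝ) ^ k⌋ % b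

/-- the sum of the first `n` digits after the point -/
noncomputable def digitSum (b : ℕ) (x : ℝ) (n : ℕ) : ℤ := ∑ k ∈ Icc 1 n, digit b x k

/-- `k` is a sum of at least one and at most `D` places `≥ 1` of nonzero digits -/
def Places (b : ℕ) (x : ℝ) (D k : ℕ) : Prop :=
  ∃ l : List ℕ, l ≠ [] ∧ l.length ≤ D ∧ (∀ i ∈ l, 1 ≤ i ∧ digit b x i ≠ 0) ∧ l.sum = k

lemma repl_iff (b : ℕ) (x : ℝ) (k : ℕ) :
    V11235.SG.RepL (univ : Finset (Fin 1)) (fun _ => 1) (fun _ => [x, x]) b k ↔
      TwoPlaces b x k := by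
  constructor
  · rintro ⟨i0, hi0, ha0, s, hs1, hs2⟩
    match s, hs1, hs2 with
    | [i, j], hs1, hs2 =>
      simp only [List.forall₂_cons, List.Forall₂.nil, and_true] at hs1
      exact ⟨i, j, hs1.1, hs1.2, by simpa using hs2⟩
  · rintro ⟨i, j, hi, hj, rfl⟩
    exact ⟨0, mem_univ _, one_ne_zero, [i, j], List.Forall₂.cons hi (List.Forall₂.cons hj
      List.Forall₂.nil), by simp⟩

open Classical in
/-- (1) If no integer between `N` and `N + g` is the sum of two places of nonzero entries of `√d`,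
then `b ^ g ≤ √d + S (N + g)`; (2) at least `(log 2 / 10) N / log (2 + (S N + √d)² / N)` integers
up to `N` are sums of two such places; (3) a similar bound for the sums of at most `D` places of
nonzero digits of an arbitrary algebraic irrational number of degree at most `D`. -/
theorem result :
    (∀ d b : ℕ, ¬ IsSquare d → 2 ≤ b →
      (∀ N g : ℕ, (∀ k, N < k → k ≤ N + g → ¬ TwoPlaces b (√d) k) →
        (b : ℝ) ^ g ≤ √d + S b (√d) (N + g)) ∧
      ∃ N0 : ℕ, ∀ N : ℕ, N0 ≤ N → Real.log 2 / 10 * N ≤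
        (((Icc 1 N).filter (TwoPlaces b (√d))).card : ℝ) *
          Real.log (2 + ((S b (√d) N : ℝ) + √d) ^ 2 / N)) ∧
    (∀ (b : ℕ), 2 ≤ b → ∀ P : ℤ[X], 2 ≤ P.natDegree → ∀ ξ : ℝ, Irrational ξ → aeval ξ P = 0 →
      ∃ κ : ℝ, 0 < κ ∧ ∃ ε : ℝ, 0 < ε ∧ ∃ N0 : ℕ, ∀ N : ℕ, N0 ≤ N →
        Real.log N * (digitSum b ξ N : ℝ) ^ (P.natDegree - 1) ≤ ε * N →
        κ * N ≤ (((Icc 1 N).filter (Places b ξ P.natDegree)).card : ℝ) *
          Real.log (2 + (digitSum b ξ N : ℝ) ^ P.natDegree / N)) := by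
  refine ⟨fun d b hd hb => ?_, fun b hb P hD ξ hirr hP => ?_⟩
  · have hirr : Irrational √(d : ℝ) := by
      exact irrational_sqrt_natCast_iff.mpr hd
    have hd1 : 1 ≤ d := by
      rcases Nat.eq_zero_or_pos d with h | h
      · exact absurd (by rw [h]; exact IsSquare.zero) hd
      · exact h
    have hx1 : 1 ≤ √(d : ℝ) := by
      rw [Real.one_le_sqrt]; exact_mod_cast hd1
    set x : ℝ := √(d : ℝ) with hx
    have hrel : ∑ i : Fin 1, (((fun _ => 1 : Fin 1 → ℕ) i : ℕ) : ℝ) *
        ((fun _ => [x, x] : Fin 1 → List ℝ) i).prod = (d : ℕ) := by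
      have : x * x = d := Real.mul_self_sqrt (Nat.cast_nonneg _)
      simp [this]
    have hL : ∀ i ∈ (univ : Finset (Fin 1)), ∀ z ∈ ((fun _ => [x, x] : Fin 1 → List ℝ) i),
        0 < z ∧ z ≤ x := by
      intro i _ z hz
      simp only [List.mem_cons, List.not_mem_nil, or_false, or_self] at hz
      subst hz
      exact ⟨by linarith, le_rfl⟩
    have hirr' : ∃ i ∈ (univ : Finset (Fin 1)), (fun _ => 1 : Fin 1 → ℕ) i ≠ 0 ∧
        ∃ z ∈ ((fun _ => [x, x] : Fin 1 → List ℝ) i), Irrational z :=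
      ⟨0, mem_univ _, one_ne_zero, x, by simp, hirr⟩
    have hR' : V11235.SG.RepL (univ : Finset (Fin 1)) (fun _ => 1) (fun _ => [x, x]) b =
        TwoPlaces b x := funext fun k => propext (repl_iff b x k)
    refine ⟨fun N g hk => ?_, ?_⟩
    · have h1 := V11235.SG.ZL_ge hb (fun i hi z hz => (hL i hi z hz).1) hirr' hrel N
      have h2 := V11235.SG.ZL_zeros (t := (univ : Finset (Fin 1))) (a := fun _ => 1)
        (L := fun _ => [x, x]) (b := b) N g (fun k hk1 hk2 => by
          rw [hR']; exact hk k hk1 hk2)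
      have h3 : V11235.SG.ZL (univ : Finset (Fin 1)) (fun _ => 1) (fun _ => [x, x]) b (N + g) =
          V11235.SG.TL b [x, x] (N + g) := by
        simp [V11235.SG.ZL]
      have h4 := V11235.SG.TL_step hb x [x] (N + g)
      have h5 := V11235.SG.TL_step hb x [] (N + g)
      rw [V11235.SG.TL_nil, V11235.SG.PD_nil] at h5
      rw [V11235.SG.PD_cons, V11235.SG.PD_nil] at h4
      have h6 : x * V11235.SG.TL b [x] (N + g) ≤ x * 1 :=
        mul_le_mul_of_nonneg_left (by simpa using h5) (by linarith)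
      have h7 : (0 : ℝ) < (b : ℝ) ^ g := by positivity
      have h8 : (S b x (N + g) : ℝ) = V11235.SG.SS b x (N + g) := rfl
      rw [h3] at h2
      push_cast at h4
      rw [h8]
      nlinarith
    · have h := V11235.SG.log_list (t := (univ : Finset (Fin 1))) (a := fun _ => 1)
        (L := fun _ => [x, x]) (c := d) hb hx1 hL hirr' hrel
      rw [hR'] at h
      obtain ⟨N0, hN0⟩ := h
      refine ⟨N0, fun N hN => ?_⟩
      have h1 := hN0 N hN
      have h2 : ∑ i : Fin 1, (((fun _ => 1 : Fin 1 → ℕ) i : ℕ) : ℝ) *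
          V11235.SG.PM b x ((fun _ => [x, x] : Fin 1 → List ℝ) i) N =
          ((S b x N : ℝ) + x) ^ 2 := by
        simp only [univ_unique, Fin.default_eq_zero, Fin.isValue, sum_const, card_singleton,
          one_smul, Nat.cast_one, one_mul, V11235.SG.PM_cons, V11235.SG.PM_nil, mul_one]
        rw [sq]; rfl
      rw [h2] at h1
      exact h1
  · exact V11235.SG.real_log hb P hD hirr hP

end Pool.Agent.Results.MP_0308e6_nt.SumsOfPlaces
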